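import Pool.Agent.Helper5.LCU.Stmts
set_option autoImplicit false

open Finset Pool.Agent.Helper89.UB
open Pool.Agent.Helper5.LCU

namespace Pool.Agent.Helper58.LCU

theorem st_ZB : ST_ZB := by
  classical
  intro n E S K hKS hK m hm
  unfold sur
  rw [Finset.card_eq_zero, Finset.eq_empty_iff_forall_notMem]
  intro c hc
  unfold OP at hc
  obtain ⟨-, hne, hdis, hcov, hal⟩ := Finset.mem_filter.1 hc
  have h1 : ∀ v : K, ∃ i, (v : Fin n) ∈ c i := fun v => (hcov v).1 (hKS v.2)
  choose g hg using h1
  have hinj : Function.Injective g := by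
    intro u v huv
    by_contra hne'
    have hne2 : (u : Fin n) ≠ v := fun h => hne' (Subtype.ext h)
    have he := hK u u.2 v v.2 hne2
    apply hal (g u) _ he
    intro x hx
    rw [Finset.mem_insert, Finset.mem_singleton] at hx
    rcases hx with rfl | rfl
    · exact hg u
    · rw [huv]
      exact hg v
  have h2 := Fintype.card_le_of_injective g hinj
  rw [Fintype.card_fin, Fintype.card_coe] at h2
  omega

end Pool.Agent.Helper58.LCU
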